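import Mathlib
import Pool.Agent.X6.CoverMat4

/-!
# MP_725651_al, Q1: covering all matrices by sums of twisted large subsets

For every `c > 0` there is `μ = μ(c)` such that for every finite field `F` with `q` elements,
every `n ≥ 1` and all subsets `X_1, ..., X_μ` of `M_n(F)` of size at least `q^(c n^2)` there are
`a_i, b_i ∈ GL(n, F)` with `a_1 X_1 b_1 + ... + a_μ X_μ b_μ = M_n(F)`.

The proof: for `q^n` large in terms of `c`, Fourier analysis and averaging over the `a_i, b_i`;
for bounded `q^n`, the sumset can be made larger by one in each step.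
-/

namespace Pool.Agent.Results.MP_725651_al.CoverMatrices

open Matrix Pool.Agent.X6.CoverMat

universe u

/-- The statement of Q1 holds: there is `μ(c)` with the covering property. -/
theorem result :
    ∀ c : ℝ, 0 < c → ∃ μ : ℕ, ∀ (F : Type u) [Field F] [Fintype F] (n : ℕ), 1 ≤ n →
      ∀ X : Fin μ → Finset (Matrix (Fin n) (Fin n) F),
        (∀ i, (Fintype.card F : ℝ) ^ (c * (n : ℝ) ^ 2) ≤ ((X i).card : ℝ)) →
        ∃ a b : Fin μ → GL (Fin n) F, ∀ g : Matrix (Fin n) (Fin n) F,
          ∃ x : Fin μ → Matrix (Fin n) (Fin n) F, (∀ i, x i ∈ X i) ∧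
            ∑ i, (a i : Matrix (Fin n) (Fin n) F) * x i * (b i : Matrix (Fin n) (Fin n) F) = g := by
  intro c hc
  set B : ℝ := (√32) ^ (16 / c) with hB
  have h32 : (1 : ℝ) ≤ √32 := by
    rw [Real.one_le_sqrt]
    norm_num
  have hB1 : 1 ≤ B := Real.one_le_rpow h32 (by positivity)
  refine ⟨max ⌈64 / c⌉₊ ⌈B ^ B⌉₊, ?_⟩
  set μ : ℕ := max ⌈64 / c⌉₊ ⌈B ^ B⌉₊ with hμ
  intro F _ _ n hn X hX
  have hq : 2 ≤ Fintype.card F := Fintype.one_lt_card
  set q := Fintype.card F with hqd
  have hq2 : (2 : ℝ) ≤ q := by exact_mod_cast hq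
  have hq1 : (1 : ℝ) < q := by linarith
  have hq0 : (0 : ℝ) < q := by linarith
  by_cases hbig : B ≤ (q : ℝ) ^ n
  · refine large c hc μ ?_ hn ?_ X hX
    · exact (Nat.le_ceil _).trans (by exact_mod_cast le_max_left _ _)
    · have h1 : B ^ (c / 16) ≤ ((q : ℝ) ^ n) ^ (c / 16) :=
        Real.rpow_le_rpow (by linarith) hbig (by positivity)
      have h2 : B ^ (c / 16) = √32 := by
        rw [hB, ← Real.rpow_mul (by linarith)]
        have : 16 / c * (c / 16) = 1 := by field_simp
        rw [this, Real.rpow_one]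
      have h3 : ((q : ℝ) ^ n) ^ (c / 16) = (q : ℝ) ^ (c * n / 16) := by
        rw [← Real.rpow_natCast, ← Real.rpow_mul hq0.le]
        congr 1
        ring
      rw [h2, h3] at h1
      exact h1
  · push Not at hbig
    have hX2 : ∀ i, 2 ≤ (X i).card := by
      intro i
      have h1 : (1 : ℝ) < ((X i).card : ℝ) := by
        refine lt_of_lt_of_le ?_ (hX i)
        apply Real.one_lt_rpow hq1
        have : (0 : ℝ) < n := by exact_mod_cast hn
        positivity
      have h2 : 1 < (X i).card := by exact_mod_cast h1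
      omega
    obtain ⟨a, b, S, hS, hSc, -⟩ := growth μ X hX2
    refine ⟨a, b, fun g => hS g ?_⟩
    rcases hSc with h | h
    · rw [h]
      exact Finset.mem_univ _
    · exfalso
      have h1 : S.card ≤ q ^ (n * n) := by
        have := Finset.card_le_univ S
        rwa [card_Mat] at this
      have h2 : ((q ^ (n * n) : ℕ) : ℝ) ≤ B ^ B := by
        have hn2 : (n : ℝ) ≤ B := by
          have e1 : n < 2 ^ n := Nat.lt_two_pow_self
          have e2 : (2 : ℕ) ^ n ≤ q ^ n := Nat.pow_le_pow_left hq n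
          have e3 : (n : ℝ) ≤ (q : ℝ) ^ n := by exact_mod_cast (lt_of_lt_of_le e1 e2).le
          linarith
        push_cast
        calc (q : ℝ) ^ (n * n) = ((q : ℝ) ^ n) ^ n := by rw [pow_mul]
          _ ≤ B ^ n := pow_le_pow_left₀ (by positivity) hbig.le n
          _ = B ^ (n : ℝ) := (Real.rpow_natCast _ _).symm
          _ ≤ B ^ B := Real.rpow_le_rpow_of_exponent_le hB1 hn2
      have h3 : (((q ^ (n * n) : ℕ)) : ℝ) ≤ (μ : ℝ) :=
        (h2.trans (Nat.le_ceil _)).trans (by exact_mod_cast le_max_right _ _)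
      have h4 : q ^ (n * n) ≤ μ := by exact_mod_cast h3
      omega

end Pool.Agent.Results.MP_725651_al.CoverMatrices
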